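import Pool.Agent.Helper780_BE.A12
import Pool.Agent.Helper780_BE.V10
import Pool.Agent.Helper780_BE.V9

set_option autoImplicit false

open MeasureTheory
open scoped Topology

namespace Pool.Agent.Results.MP_d1ae63_mp.FullAnswer

open Pool.Agent.Helper780_BE

/-- The energy exponent of charged bosons with kinetic energy `|p|^α`, for every `α > 1`: the
ground state energy of `N` particles with charges `±1` lies between `-C N^γ` and `-c N^γ`,
`γ = (α²+3α-3)/((α-1)(α+3))`. -/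
theorem result (α : ℝ) (hα : 1 < α) :
    (∀ N : ℕ, (energySet α N).Nonempty ∧ BddBelow (energySet α N)) ∧
    ∃ (c C : ℝ) (N0 : ℕ), 0 < c ∧ c ≤ C ∧ ∀ N : ℕ, N0 ≤ N →
      -(C * (N : ℝ) ^ ((α ^ 2 + 3 * α - 3) / ((α - 1) * (α + 3)))) ≤ E0 α N ∧
      E0 α N ≤ -(c * (N : ℝ) ^ ((α ^ 2 + 3 * α - 3) / ((α - 1) * (α + 3)))) := by
  obtain ⟨C, hC, hlow⟩ := A12.lower α hα
  obtain ⟨c, N0, hc, hup⟩ := V10.upper α hα
  refine ⟨fun N => ⟨(V9.e0_le α hα N).1, (V9.e0_le α hα N).2.1⟩, c, max c C, max N0 1, hc,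
    le_max_left _ _, fun N hN => ⟨?_, hup N ((le_max_left _ _).trans hN)⟩⟩
  have hN1 : 1 ≤ N := (le_max_right _ _).trans hN
  refine le_csInf (V9.e0_le α hα N).1 ?_
  rintro E ⟨e, ψ, he, hψ, hn, rfl⟩
  have h := hlow N hN1 e he ψ hψ
  rw [hn, mul_one] at h
  refine le_trans ?_ h
  have h1 : (0 : ℝ) ≤ (N : ℝ) ^ ((α ^ 2 + 3 * α - 3) / ((α - 1) * (α + 3))) := by positivity
  have h2 := le_max_right c C
  nlinarith

end Pool.Agent.Results.MP_d1ae63_mp.FullAnswer
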